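import Pool.Agent.Y150.KN.Stm3

/-!
# Complete contractions of numerically trivial forms vanish (job KN-G4, statement `S_null`)
-/

set_option autoImplicit false

open CategoryTheory AlgebraicGeometry

namespace Pool.Agent.Y950.KN

universe u v w

open Pool.Agent.H914 VarClass Obj Pool.Agent.Y150.KN

section Comb

/-- the position of the first vector of the pair number `a` -/
def slotL {l r : ℕ} (π : Equiv.Perm (Fin l × Fin r)) (a : Fin l × Fin r) :
    Fin l × (Fin r ⊕ Fin r) := ((π.symm a).1, Sum.inl (π.symm a).2)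

/-- the position of the second vector of the pair number `a` -/
def slotR {l r : ℕ} (a : Fin l × Fin r) : Fin l × (Fin r ⊕ Fin r) := (a.1, Sum.inr a.2)

/-- the positions, pair by pair -/
def L₁ {l r : ℕ} (π : Equiv.Perm (Fin l × Fin r)) : List (Fin l × (Fin r ⊕ Fin r)) :=
  (List.ofFn fun k : Fin (l * r) =>
    [slotL π (finProdFinEquiv.symm k), slotR (finProdFinEquiv.symm k)]).flatten

/-- the positions in lexicographic order -/
def L₂ (l r : ℕ) : List (Fin l × (Fin r ⊕ Fin r)) :=
  (List.ofFn fun t : Fin l => List.ofFn fun i : Fin (r + r) => (t, finSumFinEquiv.symm i)).flatten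

lemma mem_L₁ {l r : ℕ} (π : Equiv.Perm (Fin l × Fin r)) (b : Fin l × (Fin r ⊕ Fin r)) :
    b ∈ L₁ π := by
  unfold L₁
  rw [List.mem_flatten]
  obtain ⟨t, s | s⟩ := b
  · refine ⟨_, (List.mem_ofFn' _ _).2 ⟨finProdFinEquiv (π (t, s)), rfl⟩, ?_⟩
    simp [slotL]
  · refine ⟨_, (List.mem_ofFn' _ _).2 ⟨finProdFinEquiv (t, s), rfl⟩, ?_⟩
    simp [slotR]

lemma mem_L₂ {l r : ℕ} (b : Fin l × (Fin r ⊕ Fin r)) : b ∈ L₂ l r := by
  unfold L₂
  rw [List.mem_flatten]
  obtain ⟨t, i⟩ := b
  refine ⟨_, (List.mem_ofFn' _ _).2 ⟨t, rfl⟩, ?_⟩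
  rw [List.mem_ofFn']
  exact ⟨finSumFinEquiv i, by simp⟩

lemma length_L₁ {l r : ℕ} (π : Equiv.Perm (Fin l × Fin r)) :
    (L₁ π).length = Fintype.card (Fin l × (Fin r ⊕ Fin r)) := by
  unfold L₁
  rw [List.length_flatten, List.map_ofFn]
  simp [Function.comp_def]
  ring

lemma length_L₂ (l r : ℕ) :
    (L₂ l r).length = Fintype.card (Fin l × (Fin r ⊕ Fin r)) := by
  unfold L₂
  rw [List.length_flatten, List.map_ofFn]
  simp [Function.comp_def]

lemma nodup_of_full {α : Type*} [Fintype α] [DecidableEq α] (L : List α) (h : ∀ a, a ∈ L)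
    (hl : L.length = Fintype.card α) : L.Nodup := by
  have h1 : (L : Multiset α).toFinset = Finset.univ := by
    ext a; simp [h a]
  have h2 : (L : Multiset α).Nodup := by
    rw [← Multiset.toFinset_card_eq_card_iff_nodup, h1, Finset.card_univ, Multiset.coe_card, hl]
  exact Multiset.coe_nodup.1 h2

lemma perm_L {l r : ℕ} (π : Equiv.Perm (Fin l × Fin r)) : (L₁ π).Perm (L₂ l r) :=
  (List.perm_ext_iff_of_nodup (nodup_of_full _ (mem_L₁ π) (length_L₁ π))
    (nodup_of_full _ mem_L₂ (length_L₂ l r))).2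
    fun a => ⟨fun _ => mem_L₂ a, fun _ => mem_L₁ π a⟩

lemma prod_L₁ {l r : ℕ} (π : Equiv.Perm (Fin l × Fin r)) {A : Type v} [Ring A]
    (Y : Fin l × (Fin r ⊕ Fin r) → A) :
    ((L₁ π).map Y).prod = (List.ofFn fun k : Fin (l * r) =>
      Y (slotL π (finProdFinEquiv.symm k)) * Y (slotR (finProdFinEquiv.symm k))).prod := by
  unfold L₁
  rw [List.map_flatten, List.prod_flatten, List.map_ofFn, List.map_ofFn]
  congr 1
  congr 1
  funext k
  simp

lemma prod_L₂ {l r : ℕ} {A : Type v} [Ring A] (Y : Fin l × (Fin r ⊕ Fin r) → A) :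
    ((L₂ l r).map Y).prod = (List.ofFn fun t : Fin l =>
      (List.ofFn fun i : Fin (r + r) => Y (t, finSumFinEquiv.symm i)).prod).prod := by
  unfold L₂
  rw [List.map_flatten, List.prod_flatten, List.map_ofFn, List.map_ofFn]
  congr 1
  congr 1
  funext k
  simp [List.map_ofFn, Function.comp_def]

/-- A product of sums. -/
lemma prod_sum {K : Type*} [Field K] {A : Type v} [Ring A] [Algebra K A] {m n : ℕ}
    (F : Fin m → Fin n → A) :
    (List.ofFn fun k => ∑ i, F k i).prod =
      ∑ J : Fin m → Fin n, (List.ofFn fun k => F k (J k)).prod := by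
  have h := MultilinearMap.map_sum (MultilinearMap.mkPiAlgebraFin K m A) F
  simpa only [MultilinearMap.mkPiAlgebraFin_apply] using h

/-- Products with central factors. -/
lemma prod_central {A : Type v} [Ring A] {m : ℕ} (a b : Fin m → A)
    (ha : ∀ t x, a t * x = x * a t) :
    (List.ofFn a).prod * (List.ofFn b).prod = (List.ofFn fun t => a t * b t).prod := by
  induction m with
  | zero => simp
  | succ m ih =>
    rw [List.ofFn_succ, List.ofFn_succ, List.ofFn_succ, List.prod_cons, List.prod_cons,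
      List.prod_cons, ← ih (fun i => a i.succ) (fun i => b i.succ) fun t x => ha _ x]
    have hc : ∀ x, (List.ofFn fun i : Fin m => a i.succ).prod * x =
        x * (List.ofFn fun i : Fin m => a i.succ).prod := by
      intro x
      have : Commute x (List.ofFn fun i : Fin m => a i.succ).prod := by
        apply Commute.list_prod_right
        intro y hy
        rw [List.mem_ofFn'] at hy
        obtain ⟨i, rfl⟩ := hy
        exact (ha _ x).symm
      exact this.symm
    rw [mul_assoc, ← mul_assoc _ (b 0), hc, mul_assoc, mul_assoc]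

end Comb

variable {k : Type u} [Field k] {𝒱 : VarClass k} {ops : CycleOps 𝒱} (W : Coh.{u, v} ops)

/-- Pull-backs preserve the parity. -/
lemma map_mem_par {X Y : 𝒱.Obj} (f : X ⟶ Y) (ε : ℕ) {a : W.H Y} (ha : a ∈ par W Y ε) :
    W.map f a ∈ par W X ε := by
  unfold par at ha ⊢
  refine Submodule.iSup_induction (fun i => W.gr Y (2 * i + ε))
    (motive := fun a => W.map f a ∈ ⨆ i, W.gr X (2 * i + ε)) ha ?_ ?_ ?_
  · intro i x hx
    exact Submodule.mem_iSup_of_mem i (W.map_mem f hx)
  · rw [_root_.map_zero]; exact Submodule.zero_mem _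
  · intro x y hx hy
    rw [_root_.map_add]; exact Submodule.add_mem _ hx hy

/-- The sign rule for elements of given parities. -/
lemma par_comm {X : 𝒱.Obj} {ε ε' : ℕ} {a b : W.H X} (ha : a ∈ par W X ε) (hb : b ∈ par W X ε') :
    a * b = ((-1 : ℤ) ^ (ε * ε')) • (b * a) := by
  unfold par at ha hb
  refine Submodule.iSup_induction (fun i => W.gr X (2 * i + ε))
    (motive := fun a => a * b = ((-1 : ℤ) ^ (ε * ε')) • (b * a)) ha ?_ ?_ ?_
  · intro i x hx
    refine Submodule.iSup_induction (fun i => W.gr X (2 * i + ε'))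
      (motive := fun b => x * b = ((-1 : ℤ) ^ (ε * ε')) • (b * x)) hb ?_ ?_ ?_
    · intro i' y hy
      rw [W.comm hx hy]
      have h1 : (-1 : W.K) ^ ((2 * i + ε) * (2 * i' + ε')) = (-1 : W.K) ^ (ε * ε') := by
        have : (2 * i + ε) * (2 * i' + ε') = 2 * (i * (2 * i' + ε') + ε * i') + ε * ε' := by ring
        rw [this, pow_add, pow_mul]
        simp
      rw [h1]
      rcases Nat.even_or_odd (ε * ε') with h | h
      · rw [h.neg_one_pow, h.neg_one_pow, one_smul, one_smul]
      · rw [h.neg_one_pow, h.neg_one_pow, neg_smul, neg_smul, one_smul, one_smul]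
    · rw [mul_zero, zero_mul, smul_zero]
    · intro y y' hy hy'
      rw [mul_add, add_mul, smul_add, hy, hy']
  · rw [mul_zero, zero_mul, smul_zero]
  · intro x x' hx hx'
    rw [mul_add, add_mul, smul_add, hx, hx']

/-- Products of algebraic classes are algebraic. -/
lemma list_prod_mem_alg {X : 𝒱.Obj} (L : List (W.H X)) (h : ∀ a ∈ L, a ∈ W.algSpan X) :
    L.prod ∈ W.algSpan X := by
  induction L with
  | nil => rw [List.prod_nil]; exact W.one_mem_alg X
  | cons a L ih =>
    rw [List.prod_cons]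
    exact W.mul_mem_alg (h a (by simp)) (ih fun b hb => h b (by simp [hb]))

theorem null (hpw : S_pw.{u, v}) (hsgn : S_sgn.{v, 0}) : S_null.{u, v} := by
  classical
  intro k _ 𝒱 ops W X P r pr hP V _ _ j ev od heo hev hod n e e' htype hδ l hl z hz T hT hzT π
  obtain ⟨Q, q, hQ'⟩ := hpw P l hl
  have hQ := hQ' ops W
  -- the slots
  let p : Fin l × (Fin r ⊕ Fin r) → (Q ⟶ X) := fun b => q b.1 ≫ pr (finSumFinEquiv b.2)
  let D : Fin l × Fin r → (Q ⟶ X.prod X) := fun a => Obj.lift (p (slotL π a)) (p (slotR a))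
  set δ : W.H (X.prod X) :=
    ∑ i, W.map (fst X X) (j (e i)) * W.map (snd X X) (j (e' i)) with hδdef
  have hDδ : ∀ a, W.map (D a) δ =
      ∑ i, W.map (p (slotL π a)) (j (e i)) * W.map (p (slotR a)) (j (e' i)) := by
    intro a
    rw [hδdef, map_sum]
    refine Finset.sum_congr rfl fun i _ => ?_
    rw [_root_.map_mul, ← W.map_comp, ← W.map_comp, lift_fst, lift_snd]
  -- the vectors
  let y : (Fin l × Fin r → Fin n) → Fin l × (Fin r ⊕ Fin r) → V := fun I b =>
    Sum.elim (fun s => e (I (π (b.1, s)))) (fun s => e' (I (b.1, s))) b.2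
  have hyL : ∀ I a, y I (slotL π a) = e (I a) := by
    intro I a
    simp [y, slotL]
  have hyR : ∀ I a, y I (slotR a) = e' (I a) := by
    intro I a
    simp [y, slotR]
  -- the two products
  set Z : W.H Q := (List.ofFn fun t => W.map (q t) (z t)).prod with hZdef
  set Dg : W.H Q := (List.ofFn fun a : Fin (l * r) =>
    W.map (D (finProdFinEquiv.symm a)) δ).prod with hDgdef
  have hZc : ∀ (t : Fin l) (x : W.H Q), W.map (q t) (z t) * x = x * W.map (q t) (z t) :=
    fun t x => W.alg_comm (W.map_mem_alg _ (hz t).1) x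
  have hZmem : Z ∈ W.numTriv Q := by
    obtain ⟨l', rfl⟩ : ∃ l', l = l' + 1 := ⟨l - 1, by omega⟩
    rw [hZdef, List.ofFn_succ, List.prod_cons]
    refine W.mul_mem_num (W.map_mem_num _ (hz 0)) (list_prod_mem_alg W _ ?_)
    intro a ha
    rw [List.mem_ofFn'] at ha
    obtain ⟨i, rfl⟩ := ha
    exact W.map_mem_alg _ (hz _).1
  have hDgmem : Dg ∈ W.algSpan Q := by
    refine list_prod_mem_alg W _ ?_
    intro a ha
    rw [List.mem_ofFn'] at ha
    obtain ⟨i, rfl⟩ := ha
    exact W.map_mem_alg _ hδ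
  have h0 : W.tr Q (Z * Dg) = 0 := hZmem.2 _ hDgmem
  -- expansion
  have hDgsum : Dg = ∑ I : Fin l × Fin r → Fin n,
      ((L₁ π).map fun b => W.map (p b) (j (y I b))).prod := by
    rw [hDgdef]
    simp only [hDδ]
    rw [prod_sum (K := W.K) (fun a i =>
      W.map (p (slotL π (finProdFinEquiv.symm a))) (j (e i)) *
        W.map (p (slotR (finProdFinEquiv.symm a))) (j (e' i)))]
    refine Fintype.sum_equiv (Equiv.arrowCongr finProdFinEquiv.symm (Equiv.refl _)) _ _ ?_
    intro J
    rw [prod_L₁]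
    congr 1
    congr 1
    funext a
    have hJ : (Equiv.arrowCongr finProdFinEquiv.symm (Equiv.refl _)) J (finProdFinEquiv.symm a) =
        J a := by
      rw [Equiv.arrowCongr_apply]
      simp only [Function.comp_apply, Equiv.symm_symm, Equiv.apply_symm_apply, Equiv.refl_apply]
    rw [hyL, hyR, hJ]
  -- the value of the lexicographic product
  have hval : ∀ I : Fin l × Fin r → Fin n,
      W.tr Q (Z * ((L₂ l r).map fun b => W.map (p b) (j (y I b))).prod) =
        ∏ t, frm W pr j (z t) (fun i => y I (t, finSumFinEquiv.symm i)) := by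
    intro I
    rw [prod_L₂, hZdef]
    have h1 : ∀ t : Fin l, (List.ofFn fun i : Fin (r + r) =>
        W.map (p (t, finSumFinEquiv.symm i)) (j (y I (t, finSumFinEquiv.symm i)))).prod =
        W.map (q t) (List.ofFn fun i : Fin (r + r) =>
          W.map (pr i) (j (y I (t, finSumFinEquiv.symm i)))).prod := by
      intro t
      rw [map_list_prod, List.map_ofFn]
      congr 1
      congr 1
      funext i
      simp only [Function.comp_apply, p]
      rw [W.map_comp]
      simp
    simp only [h1]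
    rw [prod_central _ _ hZc]
    simp only [← _root_.map_mul]
    rw [hQ.tr_prod]
    refine Finset.prod_congr rfl fun t _ => ?_
    rw [frm_apply]
  -- types
  have hycase : ∀ I b, (ev (y I b) = y I b ∧ od (y I b) = 0) ∨
      (ev (y I b) = 0 ∧ od (y I b) = y I b) := by
    rintro I ⟨t, s | s⟩
    · rcases htype (I (π (t, s))) with h | h
      · exact Or.inl ⟨h.1, h.2.1⟩
      · exact Or.inr ⟨h.1, h.2.1⟩
    · rcases htype (I (t, s)) with h | h
      · exact Or.inl ⟨h.2.2.1, h.2.2.2⟩
      · exact Or.inr ⟨h.2.2.1, h.2.2.2⟩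
  -- signs
  have hsig : ∀ ε : Fin l × (Fin r ⊕ Fin r) → ℕ, ∃ s : ℤ, (s = 1 ∨ s = -1) ∧
      ∀ I, (∀ b, W.map (p b) (j (y I b)) ∈ par W Q (ε b)) →
        W.tr Q (Z * ((L₁ π).map fun b => W.map (p b) (j (y I b))).prod) =
          s • ∏ t, frm W pr j (z t) (fun i => y I (t, finSumFinEquiv.symm i)) := by
    intro ε
    obtain ⟨s, hs, hs'⟩ := hsgn (perm_L π) ε
    refine ⟨s, hs, fun I hI => ?_⟩
    rw [hs' (W.H Q) _ fun a b _ => par_comm W (hI a) (hI b), mul_smul_comm, map_zsmul, hval]
  set εT : Fin l × (Fin r ⊕ Fin r) → ℕ := fun b =>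
    if T b.1 (finSumFinEquiv b.2) = ev then 0 else 1 with hεT
  obtain ⟨s, hs, hsT⟩ := hsig εT
  have hterm : ∀ I : Fin l × Fin r → Fin n,
      W.tr Q (Z * ((L₁ π).map fun b => W.map (p b) (j (y I b))).prod) =
        s • ∏ t, frm W pr j (z t) (fun i => y I (t, finSumFinEquiv.symm i)) := by
    intro I
    by_cases hpr : ∏ t, frm W pr j (z t) (fun i => y I (t, finSumFinEquiv.symm i)) = 0
    · obtain ⟨s', -, hs'⟩ := hsig fun b => if ev (y I b) = y I b ∧ od (y I b) = 0 then 0 else 1
      rw [hs' I, hpr, smul_zero, smul_zero]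
      intro b
      apply map_mem_par
      split_ifs with h
      · rw [← h.1]; exact hev _
      · rcases hycase I b with h' | h'
        · exact absurd h' h
        · rw [← h'.2]; exact hod _
    · apply hsT
      intro b
      apply map_mem_par
      have hne : T b.1 (finSumFinEquiv b.2) (y I b) ≠ 0 := by
        intro h
        apply hpr
        apply Finset.prod_eq_zero (Finset.mem_univ b.1)
        rw [← hzT b.1, MultilinearMap.compLinearMap_apply]
        apply MultilinearMap.map_coord_zero _ (finSumFinEquiv b.2)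
        rw [Equiv.symm_apply_apply]
        exact h
      simp only [hεT]
      split_ifs with h
      · rw [h] at hne
        rcases hycase I b with h' | h'
        · rw [← h'.1]; exact hev _
        · exact absurd h'.1 hne
      · have h2 := (hT b.1 (finSumFinEquiv b.2)).resolve_left h
        rw [h2] at hne
        rcases hycase I b with h' | h'
        · exact absurd h'.2 hne
        · rw [← h'.2]; exact hod _
  rw [hDgsum, Finset.mul_sum, map_sum] at h0
  simp only [hterm] at h0
  rw [← Finset.smul_sum] at h0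
  rcases hs with rfl | rfl
  · rw [one_smul] at h0
    exact h0
  · rw [neg_smul, one_smul, neg_eq_zero] at h0
    exact h0

end Pool.Agent.Y950.KN
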